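import Mathlib

/-!
# Small noncubical boxes with an integral edge-distinct dissection into 23 pieces

Explicit dissections, found by computer search.  The definitions follow the problem file.
-/

set_option autoImplicit false

namespace Pool.Agent.Results.MP_a41ff6_co.SmallBox

/-- The closed box (rectangular parallelepiped) with lower corner `p` and dimensions `d`. -/
def box (p : Fin 3 → ℝ) (d : Fin 3 → ℕ) : Set (Fin 3 → ℝ) :=
  Set.Icc p (fun k => p k + d k)

/-- The boxes with lower corners `p i` and dimensions `d i` form an integral dissection of the box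
`D 0 × D 1 × D 2`: all dimensions are positive integers, the union of the pieces is the box, and
the interiors of the pieces are pairwise disjoint. -/
def IsIntegralDissection (D : Fin 3 → ℕ) {n : ℕ} (p : Fin n → Fin 3 → ℝ)
    (d : Fin n → Fin 3 → ℕ) : Prop :=
  (∀ k, 0 < D k) ∧ (∀ i k, 0 < d i k) ∧
  (⋃ i, box (p i) (d i)) = box 0 D ∧
  ∀ i j, i ≠ j → Disjoint (interior (box (p i) (d i))) (interior (box (p j) (d j)))

/-- No two different pieces have an edge length in common. -/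
def EdgeDistinct {n : ℕ} (d : Fin n → Fin 3 → ℕ) : Prop :=
  ∀ i j, i ≠ j → ∀ k l, d i k ≠ d j l

/-- The volumes of the noncubical boxes that admit an integral edge-distinct dissection into
`n ≥ 23` pieces. -/
def volumes : Set ℕ :=
  {V | ∃ (D : Fin 3 → ℕ) (n : ℕ) (p : Fin n → Fin 3 → ℝ) (d : Fin n → Fin 3 → ℕ),
    23 ≤ n ∧ ¬ (D 0 = D 1 ∧ D 1 = D 2) ∧ IsIntegralDissection D p d ∧ EdgeDistinct d ∧
    V = D 0 * D 1 * D 2}

theorem exists_cell (m : ℕ → ℕ) (h0 : m 0 = 0) (n : ℕ) {x : ℝ} (hx0 : 0 ≤ x) (hx : x ≤ m n)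
    (hn : 0 < n) : ∃ a : Fin n, (m a : ℝ) ≤ x ∧ x ≤ m (a + 1) := by
  induction n with
  | zero => omega
  | succ n ih =>
    by_cases h : (m n : ℝ) ≤ x
    · exact ⟨Fin.last n, by simpa using h, by simpa using hx⟩
    · rcases Nat.eq_zero_or_pos n with rfl | hn'
      · simp [h0] at h
        linarith
      · obtain ⟨a, ha⟩ := ih (le_of_lt (not_le.1 h)) hn'
        exact ⟨a.castSucc, by simpa using ha⟩

/-- A finite certificate for a dissection: the pieces are the boxes from `lo i` to `hi i`, and the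
grid spanned by the marks `m k` refines the dissection. -/
theorem isIntegralDissection_of_cert {n : ℕ} (D : Fin 3 → ℕ) (lo hi : Fin n → Fin 3 → ℕ)
    (K : Fin 3 → ℕ) (m : Fin 3 → ℕ → ℕ)
    (hD : ∀ k, 0 < D k) (hlt : ∀ i k, lo i k < hi i k) (hin : ∀ i k, hi i k ≤ D k)
    (hK : ∀ k, 0 < K k) (hm0 : ∀ k, m k 0 = 0) (hm : ∀ k, m k (K k) = D k)
    (hcov : ∀ (a : Fin (K 0)) (b : Fin (K 1)) (c : Fin (K 2)), ∃ i,
      (lo i 0 ≤ m 0 a ∧ m 0 (a + 1) ≤ hi i 0) ∧ (lo i 1 ≤ m 1 b ∧ m 1 (b + 1) ≤ hi i 1) ∧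
      (lo i 2 ≤ m 2 c ∧ m 2 (c + 1) ≤ hi i 2))
    (hdis : ∀ i j, i ≠ j → ∃ k, hi i k ≤ lo j k ∨ hi j k ≤ lo i k) :
    IsIntegralDissection D (fun i k => (lo i k : ℝ)) (fun i k => hi i k - lo i k) := by
  have hbox : ∀ i, box (fun k => (lo i k : ℝ)) (fun k => hi i k - lo i k) =
      Set.pi Set.univ (fun k => Set.Icc (lo i k : ℝ) (hi i k)) := by
    intro i
    rw [box, ← Set.pi_univ_Icc]
    congr 1
    funext k
    have : ((hi i k - lo i k : ℕ) : ℝ) = hi i k - lo i k := by
      rw [Nat.cast_sub (hlt i k).le]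
    rw [this]
    congr 1
    ring
  have hboxD : box 0 D = Set.pi Set.univ (fun k => Set.Icc (0 : ℝ) (D k)) := by
    rw [box, ← Set.pi_univ_Icc]
    simp
  refine ⟨hD, fun i k => Nat.sub_pos_of_lt (hlt i k), ?_, ?_⟩
  · rw [hboxD]
    simp only [hbox]
    apply Set.Subset.antisymm
    · apply Set.iUnion_subset
      intro i
      apply Set.pi_mono
      intro k _
      apply Set.Icc_subset_Icc
      · positivity
      · exact_mod_cast hin i k
    · intro x hx
      have h := fun k => hx k (Set.mem_univ k)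
      have h' : ∀ k, ∃ a : Fin (K k), (m k a : ℝ) ≤ x k ∧ x k ≤ m k (a + 1) := by
        intro k
        apply exists_cell (m k) (hm0 k) (K k) (h k).1 _ (hK k)
        rw [hm k]
        exact (h k).2
      obtain ⟨a, ha⟩ := h' 0
      obtain ⟨b, hb⟩ := h' 1
      obtain ⟨c, hc⟩ := h' 2
      obtain ⟨i, h0, h1, h2⟩ := hcov a b c
      refine Set.mem_iUnion.2 ⟨i, ?_⟩
      intro k _
      have key : ∀ (u v s t : ℕ) (y : ℝ), u ≤ s → t ≤ v → (s : ℝ) ≤ y → y ≤ t →
          y ∈ Set.Icc (u : ℝ) v := by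
        intro u v s t y h1 h2 h3 h4
        exact ⟨le_trans (by exact_mod_cast h1) h3, le_trans h4 (by exact_mod_cast h2)⟩
      fin_cases k
      · exact key _ _ _ _ _ h0.1 h0.2 ha.1 ha.2
      · exact key _ _ _ _ _ h1.1 h1.2 hb.1 hb.2
      · exact key _ _ _ _ _ h2.1 h2.2 hc.1 hc.2
  · intro i j hij
    rw [hbox, hbox, interior_pi_set Set.finite_univ, interior_pi_set Set.finite_univ]
    obtain ⟨k, hk⟩ := hdis i j hij
    rw [Set.disjoint_left]
    intro x hx hy
    have hx' := hx k (Set.mem_univ k)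
    have hy' := hy k (Set.mem_univ k)
    simp only [interior_Icc] at hx' hy'
    rcases hk with hk | hk
    · have : (hi i k : ℝ) ≤ lo j k := by exact_mod_cast hk
      linarith [hx'.2, hy'.1]
    · have : (hi j k : ℝ) ≤ lo i k := by exact_mod_cast hk
      linarith [hy'.2, hx'.1]

/-- lower corners of the pieces -/
def loA : Fin 23 → Fin 3 → ℕ :=
  ![![0, 0, 0], ![1, 11, 15], ![1, 11, 0], ![0, 0, 90], ![0, 91, 53], ![1, 0, 49], ![4, 21, 66],
    ![30, 63, 20], ![4, 82, 53], ![28, 63, 66], ![11, 63, 20], ![1, 21, 15], ![11, 11, 20], ![16,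
    11, 0], ![11, 21, 49], ![11, 11, 15], ![16, 82, 20], ![0, 95, 53], ![0, 91, 0], ![1, 0, 0],
    ![4, 82, 15], ![28, 0, 49], ![4, 21, 15]]

/-- upper corners of the pieces -/
def hiA : Fin 23 → Fin 3 → ℕ :=
  ![![1, 91, 90], ![11, 21, 49], ![16, 91, 15], ![28, 95, 113], ![4, 95, 90], ![28, 21, 90], ![28,
    95, 90], ![36, 113, 113], ![30, 95, 66], ![30, 95, 113], ![30, 82, 66], ![4, 91, 90], ![36,
    63, 49], ![36, 113, 20], ![28, 63, 66], ![16, 82, 20], ![30, 113, 53], ![30, 113, 113], ![16,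
    113, 53], ![36, 11, 49], ![16, 91, 53], ![36, 63, 113], ![11, 82, 66]]

/-- marks of the grid -/
def mkA : Fin 3 → ℕ → ℕ :=
  ![fun a => [0, 1, 4, 11, 16, 28, 30, 36].getD a 0, fun a => [0, 11, 21, 63, 82, 91, 95, 113].getD a 0,
    fun a => [0, 15, 20, 49, 53, 66, 90, 113].getD a 0]

theorem dissA : IsIntegralDissection ![36, 113, 113] (fun i k => (loA i k : ℝ))
    (fun i k => hiA i k - loA i k) := by
  apply isIntegralDissection_of_cert ![36, 113, 113] loA hiA ![7, 7, 7] mkA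
  all_goals decide +kernel

/-- The `36 × 113 × 113` box (volume `459684`) has an integral edge-distinct dissection into `23`
pieces, so the smallest volume asked for in Q1 is at most `459684`. -/
theorem result :
    (∃ (p : Fin 23 → Fin 3 → ℝ) (d : Fin 23 → Fin 3 → ℕ),
      IsIntegralDissection ![36, 113, 113] p d ∧ EdgeDistinct d) ∧
    459684 ∈ volumes ∧ sInf volumes ≤ 459684 := by
  have hA : EdgeDistinct (fun i k => hiA i k - loA i k) := by
    unfold EdgeDistinct
    decide +kernel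
  have h1 : 459684 ∈ volumes :=
    ⟨![36, 113, 113], 23, _, _, le_rfl, by decide, dissA, hA, by simp⟩
  exact ⟨⟨_, _, dissA, hA⟩, h1, Nat.sInf_le h1⟩

end Pool.Agent.Results.MP_a41ff6_co.SmallBox
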